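import Mathlib

set_option autoImplicit false

/-!
# FX24/Ext: extension of a sign character to phases

`G` = a subgroup of `A × ZMod 2` in which `(0, s)` occurs only for `s = 0` (a character on a subgroup of `A` with values
in `{0, 1 / 2}`). It extends to a homomorphism `A → ℚ / ℤ`, and on a finitely generated subgroup the values lie in
`ZMod (2 * q)`.
-/

namespace Pool.FX24

open AddSubgroup

/-- the value `1 / 2` -/
noncomputable def half : ZMod 2 →+ AddCircle (1 : ℚ) :=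
  ZMod.lift 2 ⟨zmultiplesHom (AddCircle (1 : ℚ)) (((1 / 2 : ℚ)) : AddCircle (1 : ℚ)), by
    rw [zmultiplesHom_apply]
    have h : (2 : ℤ) • (((1 / 2 : ℚ)) : AddCircle (1 : ℚ)) = (((2 : ℤ) • (1 / 2 : ℚ) : ℚ) : AddCircle (1 : ℚ)) := rfl
    have h2 : ((2 : ℤ) • (1 / 2 : ℚ) : ℚ) = 1 := by norm_num
    have h3 : (((1 : ℚ)) : AddCircle (1 : ℚ)) = 0 := AddCircle.coe_period 1
    show ((2 : ℕ) : ℤ) • (((1 / 2 : ℚ)) : AddCircle (1 : ℚ)) = 0
    rw [Nat.cast_ofNat, h, h2, h3]⟩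

theorem half_one : half 1 = (((1 / 2 : ℚ)) : AddCircle (1 : ℚ)) := by
  have h : half ((1 : ℤ) : ZMod 2) = (((1 / 2 : ℚ)) : AddCircle (1 : ℚ)) := by
    unfold half
    rw [ZMod.lift_coe]
    show (1 : ℤ) • (((1 / 2 : ℚ)) : AddCircle (1 : ℚ)) = _
    rw [one_smul]
  rwa [Int.cast_one] at h

/-- the elements `k / n` -/
noncomputable def frac (n : ℕ) (hn : 0 < n) : ZMod n →+ AddCircle (1 : ℚ) :=
  ZMod.lift n ⟨zmultiplesHom (AddCircle (1 : ℚ)) (((1 / (n : ℚ) : ℚ)) : AddCircle (1 : ℚ)), by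
    have h : (n : ℤ) • (((1 / (n : ℚ) : ℚ)) : AddCircle (1 : ℚ)) =
      (((n : ℤ) • (1 / (n : ℚ)) : ℚ) : AddCircle (1 : ℚ)) := rfl
    have hn' : (n : ℚ) ≠ 0 := by exact_mod_cast hn.ne'
    have h2 : ((n : ℤ) • (1 / (n : ℚ)) : ℚ) = 1 := by
      rw [zsmul_eq_mul]
      push_cast
      field_simp
    have h3 : (((1 : ℚ)) : AddCircle (1 : ℚ)) = 0 := AddCircle.coe_period 1
    show (n : ℤ) • (((1 / (n : ℚ) : ℚ)) : AddCircle (1 : ℚ)) = 0
    rw [h, h2, h3]⟩

theorem frac_int (n : ℕ) (hn : 0 < n) (k : ℤ) :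
    frac n hn (k : ZMod n) = (((k : ℚ) / (n : ℚ) : ℚ) : AddCircle (1 : ℚ)) := by
  unfold frac
  rw [ZMod.lift_coe]
  show k • (((1 / (n : ℚ) : ℚ)) : AddCircle (1 : ℚ)) = _
  have h : k • (((1 / (n : ℚ) : ℚ)) : AddCircle (1 : ℚ)) =
      ((k • (1 / (n : ℚ)) : ℚ) : AddCircle (1 : ℚ)) := rfl
  rw [h, zsmul_eq_mul, mul_one_div]

theorem frac_inj (n : ℕ) (hn : 0 < n) : Function.Injective (frac n hn) := by
  rw [injective_iff_map_eq_zero]
  intro a ha
  obtain ⟨k, rfl⟩ := ZMod.intCast_surjective a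
  rw [frac_int] at ha
  obtain ⟨m, hm⟩ := (AddCircle.coe_eq_zero_iff (1 : ℚ)).1 ha
  have hn' : (n : ℚ) ≠ 0 := by exact_mod_cast hn.ne'
  rw [zsmul_eq_mul, mul_one, eq_div_iff hn'] at hm
  have h2 : (m * (n : ℤ) : ℤ) = k := by exact_mod_cast hm
  rw [← h2]
  push_cast
  rw [ZMod.natCast_self, mul_zero]

/-- THE EXTENSION -/
theorem ext {A : Type*} [AddCommGroup A] (G : AddSubgroup (A × ZMod 2))
    (h0 : ∀ s : ZMod 2, ((0 : A), s) ∈ G → s = 0) (W : Finset A) :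
    ∃ (q : ℕ) (φ : closure (W : Set A) →+ ZMod (2 * q)), 0 < q ∧
      ∀ (l : A) (hl : l ∈ closure (W : Set A)) (s : ZMod 2), (l, s) ∈ G →
        φ ⟨l, hl⟩ = if s = 0 then 0 else (q : ZMod (2 * q)) := by
  classical
  -- the extension to the whole group
  have hinj : Function.Injective ((AddMonoidHom.fst A (ZMod 2)).comp G.subtype) := by
    rw [injective_iff_map_eq_zero]
    rintro ⟨⟨l, s⟩, hls⟩ h
    have hl : l = 0 := h
    subst hl
    have hs := h0 s hls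
    subst hs
    rfl
  obtain ⟨φ0, hφ0⟩ := (Module.Baer.of_divisible (AddCircle (1 : ℚ))).extension_property_addMonoidHom
    ((AddMonoidHom.fst A (ZMod 2)).comp G.subtype) hinj
    ((half.comp (AddMonoidHom.snd A (ZMod 2))).comp G.subtype)
  have hG : ∀ l s, (l, s) ∈ G → φ0 l = half s := by
    intro l s h
    exact DFunLike.congr_fun hφ0 ⟨(l, s), h⟩
  -- finite order
  have hfin : ∀ w : A, ∃ n : ℕ, 0 < n ∧ ∀ m : ℕ, 0 < m → n ∣ m →
      ∀ hm : 0 < m, φ0 w ∈ (frac m hm).range := by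
    intro w
    obtain ⟨r, hr⟩ := QuotientAddGroup.mk_surjective (φ0 w)
    refine ⟨r.den, r.den_pos, ?_⟩
    rintro m hm ⟨c, hc⟩ -
    refine ⟨((r.num * c : ℤ) : ZMod m), ?_⟩
    rw [frac_int, ← hr]
    have hc0 : (c : ℚ) ≠ 0 := by
      intro h
      have : c = 0 := by exact_mod_cast h
      rw [this, mul_zero] at hc
      omega
    have hd : ((r.den : ℕ) : ℚ) ≠ 0 := by exact_mod_cast r.den_pos.ne'
    have h1 : (((r.num * c : ℤ) : ℚ) / (m : ℚ)) = r := by
      rw [hc]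
      push_cast
      rw [mul_div_mul_right _ _ hc0]
      exact Rat.num_div_den r
    rw [h1]
  choose n hn hn2 using hfin
  set q : ℕ := ∏ w ∈ W, n w with hq
  have hq0 : 0 < q := Finset.prod_pos fun w _ => hn w
  have h2q : 0 < 2 * q := by omega
  have hrange : ∀ l ∈ closure (W : Set A), φ0 l ∈ (frac (2 * q) h2q).range := by
    intro l hl
    have hle : closure (W : Set A) ≤ (frac (2 * q) h2q).range.comap φ0 := by
      rw [closure_le]
      intro w hw
      exact hn2 w (2 * q) h2q (Dvd.dvd.mul_left (Finset.dvd_prod_of_mem n hw) 2) h2q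
    exact hle hl
  refine ⟨q, (AddMonoidHom.ofInjective (frac_inj (2 * q) h2q)).symm.toAddMonoidHom.comp
    ((φ0.comp (closure (W : Set A)).subtype).codRestrict (frac (2 * q) h2q).range
      (fun l => hrange l.1 l.2)), hq0, ?_⟩
  intro l hl s hls
  show (AddMonoidHom.ofInjective (frac_inj (2 * q) h2q)).symm ⟨φ0 l, hrange l hl⟩ = _
  rw [AddEquiv.symm_apply_eq]
  apply Subtype.ext
  show φ0 l = frac (2 * q) h2q (if s = 0 then 0 else (q : ZMod (2 * q)))
  rw [hG l s hls]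
  by_cases hs : s = 0
  · rw [if_pos hs, hs, map_zero, map_zero]
  · rw [if_neg hs]
    have hs1 : s = 1 := by
      fin_cases s
      · exact absurd rfl hs
      · rfl
    rw [hs1, half_one]
    have h1 : ((q : ℕ) : ZMod (2 * q)) = (((q : ℕ) : ℤ) : ZMod (2 * q)) := by push_cast; rfl
    rw [h1, frac_int]
    have hq' : (q : ℚ) ≠ 0 := by exact_mod_cast hq0.ne'
    congr 1
    push_cast
    field_simp

end Pool.FX24
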