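import Pool.Agent.FX65.Basic

set_option autoImplicit false

/-!
# FX24/Per: the tiling of a state gluing is periodic

`Λ` = the vectors `v` with `g.Orb (1, v, s0)`. It is a group; the set of labels is invariant under `Λ`; two labels with the
same sign and the same state differ by an element of `Λ`. If the tiles cover the space then `Λ` spans it.
-/

open Set Metric
open scoped RealInnerProductSpace

namespace Pool.FX24

open Pool.FF24 (HPoly)
open Pool.FX65

variable {E : Type*} [NormedAddCommGroup E] [InnerProductSpace ℝ E] {S : Type*} {P : HPoly E}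
  (g : SGlue P S)

/-- the translate of a label -/
def sh (v : E) (τ : ℝ × E × S) : ℝ × E × S := (τ.1, τ.2.1 + v, τ.2.2)

theorem sh_nb (v u : E) (τ : ℝ × E × S) : g.nb u (sh v τ) = sh v (g.nb u τ) := by
  by_cases h : u ∈ g.I τ.2.2
  · have e1 : g.nb u (sh v τ) = (-τ.1, (τ.2.1 + v) + τ.1 • g.c τ.2.2 u, g.nx τ.2.2 u) := if_pos h
    have e2 : g.nb u τ = (-τ.1, τ.2.1 + τ.1 • g.c τ.2.2 u, g.nx τ.2.2 u) := if_pos h
    rw [e1, e2]
    unfold sh
    simp only [Prod.mk.injEq, true_and, and_true]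
    abel
  · have e1 : g.nb u (sh v τ) = (τ.1, (τ.2.1 + v) - τ.1 • g.c τ.2.2 u, g.nx τ.2.2 u) := if_neg h
    have e2 : g.nb u τ = (τ.1, τ.2.1 - τ.1 • g.c τ.2.2 u, g.nx τ.2.2 u) := if_neg h
    rw [e1, e2]
    unfold sh
    simp only [Prod.mk.injEq, true_and, and_true]
    abel

theorem orb_sh {v : E} (hv : g.Orb (1, v, g.s0)) {τ : ℝ × E × S} (h : g.Orb τ) :
    g.Orb (sh v τ) := by
  induction h with
  | base =>
    have : sh v ((1 : ℝ), (0 : E), g.s0) = (1, v, g.s0) := by unfold sh; simp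
    rw [this]
    exact hv
  | @step τ u _ hu ih =>
    rw [← sh_nb]
    exact ih.step hu

theorem orb_back {τ : ℝ × E × S} (h : g.Orb τ) : ∀ v : E, g.Orb (sh v τ) → g.Orb (1, v, g.s0) := by
  induction h with
  | base =>
    intro v hv
    have : sh v ((1 : ℝ), (0 : E), g.s0) = (1, v, g.s0) := by unfold sh; simp
    rwa [this] at hv
  | @step τ u _ hu ih =>
    intro v hv
    rw [← sh_nb] at hv
    have h1 := hv.step (star_mem g (s := (sh v τ).2.2) hu)
    rw [nb_nb g hu] at h1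
    exact ih v h1

/-- the group of translations -/
def Lam : AddSubgroup E where
  carrier := {v | g.Orb (1, v, g.s0)}
  zero_mem' := SGlue.Orb.base
  add_mem' := by
    intro v w hv hw
    have h1 := orb_sh g hw hv
    exact h1
  neg_mem' := by
    intro v hv
    refine orb_back g hv (-v) ?_
    have : sh (-v) ((1 : ℝ), v, g.s0) = (1, 0, g.s0) := by unfold sh; simp
    rw [this]
    exact SGlue.Orb.base

theorem mem_Lam {v : E} : v ∈ Lam g ↔ g.Orb (1, v, g.s0) := Iff.rfl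

theorem orb_iff {v : E} (hv : v ∈ Lam g) (e : ℝ) (t : E) (s : S) :
    g.Orb (e, t, s) ↔ g.Orb (e, t + v, s) := by
  constructor
  · intro h
    exact orb_sh g hv h
  · intro h
    have h1 := orb_sh g ((Lam g).neg_mem hv) h
    have : sh (-v) (e, t + v, s) = (e, t, s) := by unfold sh; simp
    rwa [this] at h1

theorem diff_mem {e : ℝ} {t t' : E} {s : S} (h : g.Orb (e, t, s)) (h' : g.Orb (e, t', s)) :
    t' - t ∈ Lam g := by
  refine orb_back g h (t' - t) ?_
  have : sh (t' - t) (e, t, s) = (e, t', s) := by unfold sh; simp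
  rw [this]
  exact h'

/-- the translations span the space -/
theorem span_Lam [Finite S] [FiniteDimensional ℝ E]
    (hcov : ∀ p : E, ∃ τ, g.Orb τ ∧ crd τ p ∈ P.body) :
    Submodule.span ℝ (Lam g : Set E) = ⊤ := by
  classical
  by_contra hne
  set V := Submodule.span ℝ (Lam g : Set E) with hV
  have hperp : Vᗮ ≠ ⊥ := by
    intro h
    exact hne ((Submodule.orthogonal_eq_bot_iff).1 h)
  obtain ⟨x, hxV, hx0⟩ := Submodule.exists_mem_ne_zero_of_ne_bot hperp
  have hxL : ∀ v ∈ Lam g, ⟪x, v⟫ = 0 := by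
    intro v hv
    rw [real_inner_comm]
    exact (Submodule.mem_orthogonal V x).1 hxV v (Submodule.subset_span hv)
  -- the numbers `⟪x, t⟫` are bounded
  have hbd : ∀ s : S, ∀ e : ℝ, ∃ M : ℝ, ∀ t, g.Orb (e, t, s) → |⟪x, t⟫| ≤ M := by
    intro s e
    by_cases h : ∃ t, g.Orb (e, t, s)
    · obtain ⟨t, ht⟩ := h
      refine ⟨|⟪x, t⟫|, fun t' ht' => ?_⟩
      have h1 := hxL _ (diff_mem g ht ht')
      rw [inner_sub_right] at h1
      rw [sub_eq_zero.1 h1]
    · push Not at h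
      exact ⟨0, fun t ht => absurd ht (h t)⟩
  choose M hM using hbd
  obtain ⟨M1, hM1⟩ : ∃ M1 : ℝ, ∀ s : S, M s 1 ≤ M1 ∧ M s (-1) ≤ M1 := by
    have := Fintype.ofFinite S
    obtain ⟨B1, hB1⟩ := (Set.finite_range fun s : S => M s 1).bddAbove
    obtain ⟨B2, hB2⟩ := (Set.finite_range fun s : S => M s (-1)).bddAbove
    exact ⟨max B1 B2, fun s => ⟨(hB1 ⟨s, rfl⟩).trans (le_max_left _ _),
      (hB2 ⟨s, rfl⟩).trans (le_max_right _ _)⟩⟩
  obtain ⟨r, hr⟩ := P.bdd
  have hall : ∀ p : E, |⟪x, p⟫| ≤ ‖x‖ * r + M1 := by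
    intro p
    obtain ⟨τ, hτ, hp⟩ := hcov p
    have hs := Orb.sign g hτ
    have h1 : |⟪x, τ.2.1⟫| ≤ M1 := by
      rcases hs with h | h
      · exact (hM τ.2.2 1 τ.2.1 (by rw [← h]; exact hτ)).trans (hM1 τ.2.2).1
      · exact (hM τ.2.2 (-1) τ.2.1 (by rw [← h]; exact hτ)).trans (hM1 τ.2.2).2
    have h2 : p = X τ (crd τ p) := (X_crd hs p).symm
    have h3 : ⟪x, p⟫ = τ.1 * ⟪x, crd τ p⟫ + ⟪x, τ.2.1⟫ := by
      conv_lhs => rw [h2]
      unfold X
      rw [inner_add_right, real_inner_smul_right]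
    have h4 : |τ.1| = 1 := by rcases hs with h | h <;> rw [h] <;> norm_num
    have h5 : |⟪x, crd τ p⟫| ≤ ‖x‖ * r :=
      (abs_real_inner_le_norm x _).trans (mul_le_mul_of_nonneg_left (hr _ hp) (norm_nonneg x))
    calc |⟪x, p⟫| = |τ.1 * ⟪x, crd τ p⟫ + ⟪x, τ.2.1⟫| := by rw [h3]
      _ ≤ |τ.1 * ⟪x, crd τ p⟫| + |⟪x, τ.2.1⟫| := abs_add_le _ _
      _ = |⟪x, crd τ p⟫| + |⟪x, τ.2.1⟫| := by rw [abs_mul, h4, one_mul]
      _ ≤ ‖x‖ * r + M1 := add_le_add h5 h1
  have hxx : 0 < ⟪x, x⟫ := real_inner_self_pos.2 hx0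
  have h6 := hall (((‖x‖ * r + M1 + 1) / ⟪x, x⟫) • x)
  rw [real_inner_smul_right, div_mul_cancel₀ _ hxx.ne'] at h6
  have h7 := le_abs_self (‖x‖ * r + M1 + 1)
  linarith

/-- PERIODICITY -/
theorem periodic [Finite S] [FiniteDimensional ℝ E]
    (hcov : ∀ p : E, ∃ τ, g.Orb τ ∧ crd τ p ∈ P.body) :
    ∃ b : Module.Basis (Fin (Module.finrank ℝ E)) ℝ E, ∀ i (e : ℝ) (t : E) (s : S),
      g.Orb (e, t, s) ↔ g.Orb (e, t + b i, s) := by
  obtain ⟨B, hB, hspan, hli⟩ := exists_linearIndependent ℝ (Lam g : Set E)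
  rw [span_Lam g hcov] at hspan
  let b0 : Module.Basis B ℝ E := Module.Basis.mk hli (by
    rw [Subtype.range_coe]
    exact hspan.ge)
  have := Module.Finite.finite_basis b0
  have := Fintype.ofFinite B
  have hcard : Fintype.card B = Module.finrank ℝ E := (Module.finrank_eq_card_basis b0).symm
  let b := b0.reindex (Fintype.equivFinOfCardEq hcard)
  refine ⟨b, fun i e t s => ?_⟩
  have hmem : b i ∈ Lam g := by
    show b0.reindex (Fintype.equivFinOfCardEq hcard) i ∈ Lam g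
    rw [Module.Basis.reindex_apply, Module.Basis.mk_apply]
    exact hB ((Fintype.equivFinOfCardEq hcard).symm i).2
  exact orb_iff g hmem e t s

end Pool.FX24
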