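import Pool.Agent.FX24.PerT
import Pool.Agent.FX56.Phase

set_option autoImplicit false

/-!
# FX24/PerB: the tiles of the tiling of a system of phases fall into at most `2 q` classes modulo translations

The sign of a label is determined by its phase, and two labels with the same sign and the same phase differ by a
translation which maps the tiling to itself.
-/

open Set Metric
open scoped RealInnerProductSpace

namespace Pool.FX24

open Pool.FF24 (HPoly)
open Pool.FX65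
open Pool.FX56 (Phases Up)

variable {E : Type*} [NormedAddCommGroup E] [InnerProductSpace ℝ E] {P : HPoly E} {q : ℕ} {x : E → ZMod (2 * q)}

/-- the sign of a label is determined by its phase -/
theorem sign_phase (h : Phases P q x) {τ : ℝ × E × ZMod (2 * q)} (hτ : h.glue.Orb τ) :
    (τ.1 = 1 ∧ Up τ.2.2) ∨ (τ.1 = -1 ∧ ¬ Up τ.2.2) := by
  induction hτ with
  | base => exact Or.inl ⟨rfl, FX56.up_zero h.pos⟩
  | @step τ u _ hu ih =>
    by_cases hI : u ∈ h.glue.I τ.2.2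
    · have e1 : h.glue.nb u τ = (-τ.1, τ.2.1 + τ.1 • h.glue.c τ.2.2 u, h.glue.nx τ.2.2 u) := if_pos hI
      have h2 : Up (h.glue.nx τ.2.2 u) ↔ ¬ Up τ.2.2 := FX56.up_nxt (x := x) hI
      rw [e1]
      rcases ih with ⟨k1, k2⟩ | ⟨k1, k2⟩
      · exact Or.inr ⟨by rw [k1], fun h3 => (h2.1 h3) k2⟩
      · exact Or.inl ⟨by rw [k1, neg_neg], h2.2 k2⟩
    · have e1 : h.glue.nb u τ = (τ.1, τ.2.1 - τ.1 • h.glue.c τ.2.2 u, h.glue.nx τ.2.2 u) := if_neg hI
      have h2 : Up (h.glue.nx τ.2.2 u) ↔ Up τ.2.2 := FX56.up_nxt' (x := x) hI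
      rw [e1]
      rcases ih with ⟨k1, k2⟩ | ⟨k1, k2⟩
      · exact Or.inl ⟨k1, h2.2 k2⟩
      · exact Or.inr ⟨k1, fun h3 => k2 (h2.1 h3)⟩

/-- the labels fall into at most `2 q` classes modulo the translations which map the tiling to itself -/
theorem classes (h : Phases P q x) : ∃ F : Finset (ℝ × E), F.card ≤ 2 * q ∧
    ∀ τ ∈ tiles h.glue, ∃ σ ∈ F, ∃ v : E,
      (∀ ρ : ℝ × E, ρ ∈ tiles h.glue ↔ (ρ.1, ρ.2 + v) ∈ tiles h.glue) ∧ τ = (σ.1, σ.2 + v) := by
  classical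
  have hpos := h.pos
  have : NeZero (2 * q) := ⟨by omega⟩
  let rep : ZMod (2 * q) → ℝ × E := fun s =>
    if hs : ∃ σ : ℝ × E, h.glue.Orb (σ.1, σ.2, s) then hs.choose else (1, 0)
  refine ⟨Finset.univ.image rep, ?_, ?_⟩
  · refine Finset.card_image_le.trans ?_
    rw [Finset.card_univ, ZMod.card]
  · rintro τ ⟨s, hs⟩
    have hex : ∃ σ : ℝ × E, h.glue.Orb (σ.1, σ.2, s) := ⟨τ, hs⟩
    have e : rep s = hex.choose := dif_pos hex
    have hr : h.glue.Orb ((rep s).1, (rep s).2, s) := by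
      rw [e]
      exact hex.choose_spec
    have hsg : τ.1 = (rep s).1 := by
      have k1 := sign_phase h hs
      have k2 := sign_phase h hr
      change (τ.1 = 1 ∧ Up s) ∨ (τ.1 = -1 ∧ ¬ Up s) at k1
      change ((rep s).1 = 1 ∧ Up s) ∨ ((rep s).1 = -1 ∧ ¬ Up s) at k2
      rcases k1 with ⟨k1, k3⟩ | ⟨k1, k3⟩ <;> rcases k2 with ⟨k2, k4⟩ | ⟨k2, k4⟩
      · rw [k1, k2]
      · exact absurd k3 k4
      · exact absurd k4 k3
      · rw [k1, k2]
    have hr' : h.glue.Orb (τ.1, (rep s).2, s) := by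
      rw [hsg]
      exact hr
    have hd := diff_mem h.glue hr' hs
    refine ⟨rep s, Finset.mem_image_of_mem _ (Finset.mem_univ _), τ.2 - (rep s).2, fun ρ => ?_, ?_⟩
    · constructor
      · rintro ⟨t, ht⟩
        exact ⟨t, (orb_iff h.glue hd ρ.1 ρ.2 t).1 ht⟩
      · rintro ⟨t, ht⟩
        exact ⟨t, (orb_iff h.glue hd ρ.1 ρ.2 t).2 ht⟩
    · rw [add_sub_cancel]
      exact Prod.ext hsg rfl

end Pool.FX24
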