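import Pool.Agent.FX24.Per
import Pool.Agent.FX65.Suff

set_option autoImplicit false

/-!
# FX24/PerT: a state gluing which satisfies the ridge condition gives a periodic facet-to-facet tiling
-/

open Set Metric
open scoped RealInnerProductSpace

namespace Pool.FX24

open Pool.FF24 (HPoly)
open Pool.FX65

variable {E : Type*} [NormedAddCommGroup E] [InnerProductSpace ℝ E] {S : Type*} {P : HPoly E}
  (g : SGlue P S)

theorem periodic_tiles [Finite S] [FiniteDimensional ℝ E] (hC : g.Cyc) :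
    FF56.IsFF P (tiles g) ∧ ∃ b : Module.Basis (Fin (Module.finrank ℝ E)) ℝ E, ∀ i (τ : ℝ × E),
      τ ∈ tiles g ↔ (τ.1, τ.2 + b i) ∈ tiles g := by
  have hT := suf_tiles g hC
  refine ⟨hT, ?_⟩
  obtain ⟨b, hb⟩ := periodic g (by
    intro p
    obtain ⟨τ, ⟨s, hs⟩, z, hz, hzp⟩ := hT.cover p
    refine ⟨(τ.1, τ.2, s), hs, ?_⟩
    have h1 : p = X ((τ.1, τ.2, s) : ℝ × E × S) z := hzp.symm
    rw [h1, crd_X (Orb.sign g hs)]
    exact hz)
  refine ⟨b, fun i τ => ?_⟩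
  constructor
  · rintro ⟨s, hs⟩
    exact ⟨s, (hb i τ.1 τ.2 s).1 hs⟩
  · rintro ⟨s, hs⟩
    exact ⟨s, (hb i τ.1 τ.2 s).2 hs⟩

end Pool.FX24
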