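import Pool.Agent.FF79.Nec
import Pool.Agent.FF25.Step
import Pool.Agent.FF57.CDef

set_option autoImplicit false

/-!
# FX24/Seq: the ridge condition for one sequence of flags; the gluing data of the fixed facets of a tiling

`cyc_seq`: the version of `FF79.cyc_of_disj` for one sequence.
`exists_glueF`: every facet-to-facet tiling `T` gives gluing data `g`: `u ∈ g.I` iff all crossings of `u` change the sign;
and if the facet `u` is fixed (all crossings of `u` have the same type) then the tile behind it is `g.nb u τ`.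
`fixed_seq`: the ridge condition for the sequences of fixed facets.
-/

open Set Metric
open scoped RealInnerProductSpace

namespace Pool.FX24

open Pool.FF24 Pool.FF79 Pool.FF56 Pool.FF57

variable {E : Type*} [NormedAddCommGroup E] [InnerProductSpace ℝ E]

/-- all crossings of the facet `u` have the same type -/
def Fixed (P : HPoly E) (T : Set (ℝ × E)) (u : E) : Prop :=
  (∀ τ σ, Crs P T τ u σ → σ.1 = -τ.1) ∨ ∀ τ σ, Crs P T τ u σ → σ.1 = τ.1

section
variable [FiniteDimensional ℝ E] {P : HPoly E}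

open Classical in
/-- the ridge condition for ONE sequence of flags, if the tiles of this sequence do not overlap (the proof is the one of
`FF79.cyc_of_disj`) -/
theorem cyc_seq (g : Glue P) (a : ℕ → E × E) (ha : ∀ i, g.Cross (a i) (a (i + 1)))
    (hd : ∀ D : ℕ → ℝ × E, D 0 = (1, 0) → (∀ r, D (r + 1) = g.nb (a r).2 (D r)) → ∀ r s,
      D r ≠ D s → Disjoint (interior (X (D r) '' P.body)) (interior (X (D s) '' P.body))) :
    a 3 = a 0 ∨ (a 4 = a 0 ∧ Even ((Finset.range 4).filter fun i => (a i).2 ∈ g.I).card) := by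
  have hmem : ∀ r, (a r).1 ∈ P.N ∧ (a r).2 ∈ P.N := by
    intro r
    obtain ⟨-, -, -, y, -, hact, -⟩ := ha r
    have h1 : (a r).1 ∈ P.act y := by rw [hact]; simp
    have h2 : (a r).2 ∈ P.act y := by rw [hact]; simp
    exact ⟨h1.1, h2.1⟩
  have hne : ∀ r, (a r).1 ≠ (a r).2 := fun r => (ha r).1
  have hfin : (Set.range a).Finite := by
    refine ((P.N.finite_toSet).prod (P.N.finite_toSet)).subset ?_
    rintro _ ⟨r, rfl⟩
    exact ⟨(hmem r).1, (hmem r).2⟩
  obtain ⟨m, hm, hper, hdist⟩ := min_period a g.Cross ha (fun x y z h h' => cross_fun g h h')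
    (fun x y z h h' => cross_inj g h h') hfin
  obtain ⟨y₀, D, e, hy₀, hD0, hDs, hOrb, hcrd, he, he', hrec, hli⟩ := cycle_data g a ha
  obtain ⟨p, q, hpq, hp0, hq0, hp1, hq1, hdet⟩ := coords e hrec
  have hε : ∀ r, (D r).1 = 1 ∨ (D r).1 = -1 := fun r => Orb.sign g (hOrb r)
  have hε0 : (D 0).1 = 1 := by rw [hD0]
  have hsq : ∀ r, (D r).1 * (D r).1 = 1 := by
    intro r
    rcases hε r with h | h <;> rw [h] <;> norm_num
  have hεs : ∀ r, ((a r).2 ∈ g.I ∧ (D (r + 1)).1 = -(D r).1) ∨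
      ((a r).2 ∉ g.I ∧ (D (r + 1)).1 = (D r).1) := by
    intro r
    rw [hDs r]
    by_cases h : (a r).2 ∈ g.I
    · left
      refine ⟨h, ?_⟩
      simp [Glue.nb, h]
    · right
      refine ⟨h, ?_⟩
      simp [Glue.nb, h]
  have hperε : ∀ r, (D (r + m)).1 = (D m).1 * (D r).1 := by
    intro r
    induction r with
    | zero => rw [zero_add, hε0, mul_one]
    | succ r ih =>
      have e1 : r + 1 + m = (r + m) + 1 := by ring
      rw [e1]
      have h1 := hεs (r + m)
      rw [hper r] at h1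
      rcases h1 with ⟨h2, h3⟩ | ⟨h2, h3⟩ <;> rcases hεs r with ⟨h4, h5⟩ | ⟨h4, h5⟩
      · rw [h3, h5, ih]; ring
      · exact absurd h2 h4
      · exact absurd h4 h2
      · rw [h3, h5, ih]
  have hn1 : ∀ r, (a r).1 = (-(D r).1 * p r) • e 0 + (-(D r).1 * q r) • e 1 := by
    intro r
    have h1 : (a r).1 = -(D r).1 • e r := by
      rw [he r, smul_neg, neg_smul, neg_neg, smul_smul, hsq r, one_smul]
    rw [h1]
    conv_lhs => rw [hpq r]
    rw [smul_add, smul_smul, smul_smul]
  have hn2 : ∀ r, (a r).2 = ((D r).1 * p (r + 1)) • e 0 + ((D r).1 * q (r + 1)) • e 1 := by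
    intro r
    have h1 : (a r).2 = (D r).1 • e (r + 1) := by
      rw [he' r, smul_smul, hsq r, one_smul]
    rw [h1]
    conv_lhs => rw [hpq (r + 1)]
    rw [smul_add, smul_smul, smul_smul]
  have hpere : ∀ r, p (r + m) = (D m).1 * p r ∧ q (r + m) = (D m).1 * q r := by
    intro r
    have h1 := hn1 (r + m)
    rw [hper r, hn1 r, hperε r] at h1
    have h2 := pair_coords hli h1
    rcases hε r with h3 | h3 <;> rcases hε m with h4 | h4 <;> rw [h3, h4] at h2 <;> rw [h4] <;>
      constructor <;> linarith [h2.1, h2.2]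
  have hswap : ∀ r s, ¬ ((a r).1 = (a s).2 ∧ (a r).2 = (a s).1) := by
    rintro r s ⟨h1, h2⟩
    rw [hn1 r, hn2 s] at h1
    rw [hn2 r, hn1 s] at h2
    obtain ⟨h3, h4⟩ := pair_coords hli h1
    obtain ⟨h5, h6⟩ := pair_coords hli h2
    have d1 := hdet r
    have d2 := hdet s
    have k1 : p r * q (r + 1) - p (r + 1) * q r =
        -((-(D r).1 * p r) * ((D r).1 * q (r + 1)) - ((D r).1 * p (r + 1)) * (-(D r).1 * q r)) := by
      have := hsq r
      linear_combination (-(p r * q (r + 1) - p (r + 1) * q r)) * this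
    have k2 : p s * q (s + 1) - p (s + 1) * q s =
        -((-(D s).1 * p s) * ((D s).1 * q (s + 1)) - ((D s).1 * p (s + 1)) * (-(D s).1 * q s)) := by
      have := hsq s
      linear_combination (-(p s * q (s + 1) - p (s + 1) * q s)) * this
    rw [h3, h4, h5, h6] at k1
    have k3 : p r * q (r + 1) - p (r + 1) * q r = -(p s * q (s + 1) - p (s + 1) * q s) := by
      rw [k1, k2]; ring
    linarith
  have hset : ∀ r s, ({(a r).1, (a r).2} : Set E) = {(a s).1, (a s).2} → a r = a s := by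
    intro r s h
    rcases (Set.pair_eq_pair_iff.1 h) with h1 | h1
    · exact Prod.ext h1.1 h1.2
    · exact absurd h1 (hswap r s)
  have hmod : ∀ r, a (r % m) = a r := by
    intro r
    have h1 : ∀ k r, a (r + k * m) = a r := by
      intro k
      induction k with
      | zero => intro r; simp
      | succ k ih =>
        intro r
        have : r + (k + 1) * m = (r + k * m) + m := by ring
        rw [this, hper, ih]
    conv_rhs => rw [← Nat.mod_add_div r m, mul_comm m]
    rw [h1]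
  have key := planeNec m hm p q (fun r => (D r).1) hε hε0 hdet
    (fun r => ⟨hperε r, (hpere r).1, (hpere r).2⟩) ?_ ?_
  · obtain ⟨hm4, h4⟩ := key
    have hc : m = 1 ∨ m = 2 ∨ m = 3 ∨ m = 4 := by omega
    rcases hc with rfl | rfl | rfl | rfl
    · left
      rw [hper 2, hper 1]
      exact hper 0
    · right
      refine ⟨?_, ?_⟩
      · rw [hper 2]
        exact hper 0
      · exact even_card_two _ (by rw [show (2 : ℕ) = 0 + 2 from rfl, hper 0])
          (by rw [show (3 : ℕ) = 1 + 2 from rfl, hper 1])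
    · left
      exact hper 0
    · right
      exact ⟨hper 0, even_card_four _ (fun r => (D r).1) hε0 (h4 rfl) hεs⟩
  · intro r hr s hs hrs α β γ δ hα hβ hγ hδ h
    have h1 : α • (a r).1 + β • (a r).2 = γ • (a s).1 + δ • (a s).2 := by
      rw [hn1 r, hn2 r, hn1 s, hn2 s]
      have e1 : α • ((-(D r).1 * p r) • e 0 + (-(D r).1 * q r) • e 1) +
          β • (((D r).1 * p (r + 1)) • e 0 + ((D r).1 * q (r + 1)) • e 1) =
          ((D r).1 * (-α * p r + β * p (r + 1))) • e 0 +
            ((D r).1 * (-α * q r + β * q (r + 1))) • e 1 := by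
        module
      have e2 : γ • ((-(D s).1 * p s) • e 0 + (-(D s).1 * q s) • e 1) +
          δ • (((D s).1 * p (s + 1)) • e 0 + ((D s).1 * q (s + 1)) • e 1) =
          ((D s).1 * (-γ * p s + δ * p (s + 1))) • e 0 +
            ((D s).1 * (-γ * q s + δ * q (s + 1))) • e 1 := by
        module
      rw [e1, e2, h.1, h.2]
    have h2 := cone_disj (hcrd r).1 (hcrd r).2 (hcrd s).1 (hcrd s).2 hα hβ hγ hδ h1
    exact hrs (hdist r hr s hs (hset r s h2))
  · rintro r s hrs hs Xx Yy ⟨h1, h2, h3, h4⟩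
    obtain ⟨x, hx0, hx1⟩ := exists_dual hli Xx Yy
    have hin : ∀ t, ⟪e t, x⟫ = p t * Xx + q t * Yy := by
      intro t
      rw [hpq t, inner_add_left, real_inner_smul_left, real_inner_smul_left, hx0, hx1]
    rw [← hin] at h1 h2 h3 h4
    obtain ⟨η₁, hη₁, w1⟩ := wedge_interior (hε r) (hcrd r).1 (hcrd r).2 (x := x)
      (by rw [he r, inner_neg_left] at h1; linarith) (by rw [he' r] at h2; exact h2)
    obtain ⟨η₂, hη₂, w2⟩ := wedge_interior (hε s) (hcrd s).1 (hcrd s).2 (x := x)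
      (by rw [he s, inner_neg_left] at h3; linarith) (by rw [he' s] at h4; exact h4)
    have hη : 0 < min η₁ η₂ / 2 := by have := lt_min hη₁ hη₂; linarith
    have g1 := w1 (min η₁ η₂ / 2) hη (by have := min_le_left η₁ η₂; linarith)
    have g2 := w2 (min η₁ η₂ / 2) hη (by have := min_le_right η₁ η₂; linarith)
    have hDD : D r = D s := by
      by_contra hDD
      exact Set.disjoint_left.1 (hd D hD0 hDs r s hDD) g1 g2
    have haa : a r = a s := by
      apply hset
      rw [← (hcrd r).2, ← (hcrd s).2, hDD]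
    have hmm := hdist (r % m) (Nat.mod_lt _ hm) (s % m) (Nat.mod_lt _ hm) (by rw [hmod, hmod, haa])
    rcases hs with hs | ⟨hs1, hs2⟩
    · rw [Nat.mod_eq_of_lt hs, Nat.mod_eq_of_lt (by omega)] at hmm
      omega
    · have hsr : s = r + m := by
        have f1 := Nat.mod_add_div r m
        have f2 := Nat.mod_add_div s m
        have g1 : r / m < 2 := Nat.div_lt_of_lt_mul (by omega)
        have g2 : s / m < 2 := Nat.div_lt_of_lt_mul (by omega)
        generalize r / m = kr at f1 g1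
        generalize s / m = ks at f2 g2
        generalize r % m = ar at f1 hmm
        generalize s % m = as at f2 hmm
        subst hmm
        interval_cases kr <;> interval_cases ks <;> omega
      have h5 := hperε r
      rw [← hsr, ← hDD, hs1] at h5
      rcases hε r with h6 | h6 <;> rw [h6] at h5 <;> norm_num at h5


end

variable {P : HPoly E}

theorem exists_glueF {T : Set (ℝ × E)} (hT : IsFF P T) :
    ∃ g : Glue P, (∀ u ∈ P.N, (u ∈ g.I ↔ ∀ τ σ, Crs P T τ u σ → σ.1 = -τ.1)) ∧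
      ∀ τ σ u, Crs P T τ u σ → ((u ∈ g.I ∧ σ.1 = -τ.1) ∨ (u ∉ g.I ∧ σ.1 = τ.1)) →
        σ = g.nb u τ := by
  classical
  set I : Set E := {u | ∀ τ σ, Crs P T τ u σ → σ.1 = -τ.1} with hI
  have hne0 : ∀ {r : ℝ}, (r = 1 ∨ r = -1) → r ≠ -r := by
    rintro r (h | h) <;> rw [h] <;> norm_num
  obtain ⟨τ0, hτ0, -⟩ := hT.cover 0
  -- symmetric facets
  have h1 : ∀ u ∈ P.N, u ∈ I → Csym P u := by
    intro u hu huI
    obtain ⟨σ, hσ, hne, hF, h | h⟩ := hT.cases hτ0 hu
    · exact h.2
    · have h2 := huI τ0 σ ⟨hτ0, hσ, hne, hu, hF⟩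
      rw [h.1] at h2
      exact absurd h2 (hne0 (hT.sign τ0 hτ0))
  have h2 : ∀ u ∈ P.N, u ∉ I → Tra P u ∧ -u ∉ I := by
    intro u hu huI
    rw [hI, mem_setOf_eq] at huI
    push Not at huI
    obtain ⟨τ, σ, hc, hs⟩ := huI
    obtain ⟨hτ, hσ, hne, -, v, hv, hF⟩ := hc
    have hn := facet_normal P (hT.sign τ hτ) (hT.sign σ hσ) hu hv (hT.disj τ hτ σ hσ hne.symm) hF
    have hs1 : σ.1 = τ.1 := by
      rcases hT.sign τ hτ with h | h <;> rcases hT.sign σ hσ with h' | h' <;> rw [h, h'] at hs ⊢ <;>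
        norm_num at hs
    have hsq : τ.1 * τ.1 = 1 := by
      rcases hT.sign τ hτ with h | h <;> rw [h] <;> norm_num
    have hvu : v = -u := by
      rw [hs1] at hn
      have h3 := congrArg (fun w => τ.1 • w) hn
      simpa [smul_smul, hsq] using h3
    subst hvu
    refine ⟨?_, fun hcon => ?_⟩
    · obtain ⟨v', hv', c, hc'⟩ : ∃ v' ∈ P.N, ∃ c, ∀ z, z ∈ P.fc u ↔ z + c ∈ P.fc (-u) := by
        refine ⟨-u, hv, τ.1 • (τ.2 - σ.2), fun z => ?_⟩
        have key : X τ z = X σ (z + τ.1 • (τ.2 - σ.2)) := by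
          unfold X
          rw [hs1, smul_add, smul_smul, hsq, one_smul]
          abel
        have hinj : ∀ ρ : ℝ × E, (ρ.1 = 1 ∨ ρ.1 = -1) → ∀ (A : Set E) (w : E),
            X ρ w ∈ X ρ '' A ↔ w ∈ A := by
          intro ρ hρ A w
          constructor
          · rintro ⟨w', hw', h⟩
            have := congrArg (crd ρ) h
            rw [crd_X hρ, crd_X hρ] at this
            rw [← this]
            exact hw'
          · intro h
            exact ⟨w, h, rfl⟩
        rw [← hinj τ (hT.sign τ hτ) (P.fc u) z, ← hF, key, hinj σ (hT.sign σ hσ)]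
      exact ⟨hv, c, hc'⟩
    · have h3 := hcon σ τ ⟨hσ, hτ, hne.symm, hv, u, hu, hF.symm⟩
      rw [hs1] at h3
      exact hne0 (hT.sign τ hτ) h3
  -- the vectors
  have hc : ∀ u : E, ∃ c : E, (u ∈ P.N → u ∈ I → ∀ z ∈ P.fc u, c - z ∈ P.fc u) ∧
      (u ∈ P.N → u ∉ I → ∀ z, z ∈ P.fc u ↔ z + c ∈ P.fc (-u)) := by
    intro u
    by_cases hu : u ∈ P.N
    · by_cases hi : u ∈ I
      · obtain ⟨c, hc⟩ := h1 u hu hi
        exact ⟨c, fun _ _ => hc, fun _ h => absurd hi h⟩
      · obtain ⟨⟨-, c, hc⟩, -⟩ := h2 u hu hi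
        exact ⟨c, fun _ h => absurd h hi, fun _ _ => hc⟩
    · exact ⟨0, fun h => absurd h hu, fun h => absurd h hu⟩
  choose c hc1 hc2 using hc
  let g : Glue P :=
    { I := I
      c := c
      inv := fun u hu hi => hc1 u hu hi
      negN := fun u hu hi => (h2 u hu hi).1.1
      negI := fun u hu hi => (h2 u hu hi).2
      tr := fun u hu hi z hz => (hc2 u hu hi z).1 hz }
  refine ⟨g, fun u _ => Iff.rfl, ?_⟩
  rintro τ σ u ⟨hτ, hσ, hne, hu, v, hv, hF⟩ hcase
  have hst := hT.sign τ hτ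
  have hss := hT.sign σ hσ
  have hsqt : τ.1 * τ.1 = 1 := by rcases hst with h | h <;> rw [h] <;> norm_num
  have hsqs : σ.1 * σ.1 = 1 := by rcases hss with h | h <;> rw [h] <;> norm_num
  have hn := facet_normal P hst hss hu hv (hT.disj τ hτ σ hσ hne.symm) hF
  have hinj : ∀ ρ : ℝ × E, (ρ.1 = 1 ∨ ρ.1 = -1) → ∀ (A : Set E) (w : E),
      X ρ w ∈ X ρ '' A ↔ w ∈ A := by
    intro ρ hρ A w
    constructor
    · rintro ⟨w', hw', h⟩
      have := congrArg (crd ρ) h
      rw [crd_X hρ, crd_X hρ] at this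
      rw [← this]
      exact hw'
    · intro h
      exact ⟨w, h, rfl⟩
  rcases hcase with ⟨hi, hs⟩ | ⟨hi, hs⟩
  · have hvu : v = u := by
      rw [hs, neg_smul, neg_inj] at hn
      have h3 := congrArg (fun w => τ.1 • w) hn
      simpa [smul_smul, hsqt] using h3
    subst hvu
    -- the vector `σ.1 • (τ.2 - σ.2)` reflects the facet
    have key : ∀ z, X τ z = X σ (τ.1 • (σ.2 - τ.2) - z) := by
      intro z
      unfold X
      rw [hs, neg_smul, smul_sub, smul_smul, hsqt, one_smul]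
      abel
    have hr : ∀ z ∈ P.fc v, τ.1 • (σ.2 - τ.2) - z ∈ P.fc v := by
      intro z hz
      rw [← hinj σ hss (P.fc v), ← key, hF]
      exact ⟨z, hz, rfl⟩
    have h0 : τ.1 • (σ.2 - τ.2) - c v = 0 := by
      obtain ⟨z0, hz1, hz2⟩ := P.real v hu
      refine tr_zero (F := P.fc v) ⟨z0, hz1, (hz2 v hu).2 rfl⟩ ?_ fun z hz => ?_
      · obtain ⟨r, hr⟩ := P.bdd
        exact isBounded_iff_forall_norm_le.2 ⟨r, fun z hz => hr z hz.1⟩
      · have h3 := hr _ (hc1 v hu hi z hz)
        have e : τ.1 • (σ.2 - τ.2) - (c v - z) = z + (τ.1 • (σ.2 - τ.2) - c v) := by abel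
        rwa [e] at h3
    have h4 : σ.2 - τ.2 = τ.1 • c v := by
      have h5 := congrArg (fun w => τ.1 • w) (sub_eq_zero.1 h0)
      simpa [smul_smul, hsqt] using h5
    have e : g.nb v τ = (-τ.1, τ.2 + τ.1 • c v) := if_pos hi
    rw [e]
    refine Prod.ext hs ?_
    show σ.2 = τ.2 + τ.1 • c v
    rw [← h4]
    abel
  · have hvu : v = -u := by
      rw [hs] at hn
      have h3 := congrArg (fun w => τ.1 • w) hn
      simpa [smul_smul, hsqt] using h3
    subst hvu
    have key : ∀ z, X τ z = X σ (z + τ.1 • (τ.2 - σ.2)) := by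
      intro z
      unfold X
      rw [hs, smul_add, smul_smul, hsqt, one_smul]
      abel
    have hr : ∀ z ∈ P.fc u, z + τ.1 • (τ.2 - σ.2) ∈ P.fc (-u) := by
      intro z hz
      rw [← hinj σ hss (P.fc (-u)), ← key, hF]
      exact ⟨z, hz, rfl⟩
    have h0 : τ.1 • (τ.2 - σ.2) - c u = 0 := by
      obtain ⟨z0, hz1, hz2⟩ := P.real u hu
      refine tr_zero (F := P.fc u) ⟨z0, hz1, (hz2 u hu).2 rfl⟩ ?_ fun z hz => ?_
      · obtain ⟨r, hr⟩ := P.bdd
        exact isBounded_iff_forall_norm_le.2 ⟨r, fun z hz => hr z hz.1⟩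
      · have h3 := hr z hz
        rw [hc2 u hu hi]
        have e : z + (τ.1 • (τ.2 - σ.2) - c u) + c u = z + τ.1 • (τ.2 - σ.2) := by abel
        rw [e]
        exact h3
    have h4 : τ.2 - σ.2 = τ.1 • c u := by
      have h5 := congrArg (fun w => τ.1 • w) (sub_eq_zero.1 h0)
      simpa [smul_smul, hsqt] using h5
    have e : g.nb u τ = (τ.1, τ.2 - τ.1 • c u) := if_neg hi
    rw [e]
    refine Prod.ext hs ?_
    show σ.2 = τ.2 - τ.1 • c u
    rw [← h4]
    abel

open Classical in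
/-- THE RIDGE CONDITION FOR FIXED FACETS -/
theorem fixed_seq [FiniteDimensional ℝ E] {T : Set (ℝ × E)} (hT : IsFF P T) {g : Glue P}
    (hI : ∀ u ∈ P.N, (u ∈ g.I ↔ ∀ τ σ, Crs P T τ u σ → σ.1 = -τ.1))
    (hnb : ∀ τ σ u, Crs P T τ u σ → ((u ∈ g.I ∧ σ.1 = -τ.1) ∨ (u ∉ g.I ∧ σ.1 = τ.1)) →
        σ = g.nb u τ)
    (a : ℕ → E × E) (ha : ∀ i, g.Cross (a i) (a (i + 1))) (hfix : ∀ i, Fixed P T (a i).2) :
    a 3 = a 0 ∨ (a 4 = a 0 ∧ Even ((Finset.range 4).filter fun i => (a i).2 ∈ g.I).card) := by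
  refine cyc_seq g a ha ?_
  intro D hD0 hDs r s hne
  obtain ⟨τ₀, h0, -⟩ := hT.cover 0
  have hs0 := hT.sign τ₀ h0
  have hmem : ∀ r, cmpC τ₀ (D r) ∈ T := by
    intro r
    induction r with
    | zero =>
      rw [hD0]
      have e : cmpC τ₀ ((1 : ℝ), (0 : E)) = τ₀ := by
        refine Prod.ext ?_ ?_
        · change τ₀.1 * 1 = τ₀.1
          ring
        · change τ₀.1 • (0 : E) + τ₀.2 = τ₀.2
          rw [smul_zero, zero_add]
      rw [e]
      exact h0
    | succ r ih =>
      rw [hDs r, cmpC_nb]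
      obtain ⟨-, -, -, y, -, hact, -⟩ := ha r
      have hu : (a r).2 ∈ P.N := by
        have h2 : (a r).2 ∈ P.act y := by rw [hact]; simp
        exact h2.1
      obtain ⟨σ, hσ, hσne, hF, -⟩ := hT.cases ih hu
      have hcr : Crs P T (cmpC τ₀ (D r)) (a r).2 σ := ⟨ih, hσ, hσne, hu, hF⟩
      have h3 : σ = g.nb (a r).2 (cmpC τ₀ (D r)) := by
        refine hnb _ _ _ hcr ?_
        rcases hfix r with h4 | h4
        · exact Or.inl ⟨(hI _ hu).2 h4, h4 _ _ hcr⟩
        · refine Or.inr ⟨fun h5 => ?_, h4 _ _ hcr⟩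
          have h6 := (hI _ hu).1 h5 _ _ hcr
          rw [h4 _ _ hcr] at h6
          rcases hT.sign _ ih with h7 | h7 <;> rw [h7] at h6 <;> norm_num at h6
      rw [← h3]
      exact hσ
  have hd := hT.disj _ (hmem r) _ (hmem s) (fun h => hne (cmpC_inj hs0 h))
  rw [Set.disjoint_left]
  intro p hp hp'
  have him : ∀ ρ : ℝ × E, X (cmpC τ₀ ρ) '' P.body = X τ₀ '' (X ρ '' P.body) := by
    intro ρ
    rw [Set.image_image]
    exact Set.image_congr fun z _ => cmpC_X τ₀ ρ z
  rw [him, him] at hd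
  exact Set.disjoint_left.1 hd (cmpC_interior hs0 hp) (cmpC_interior hs0 hp')

end Pool.FX24
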